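import Pool.Agent.H20.SPL.FiniteBasisProof

/-!
# A finite basis for the laws of the ten-element loop

The loop is the Steiner loop of the affine plane of order three.  We give an explicit finite basis
of its laws (29 laws, each in at most five variables).
-/

namespace Pool.Agent.Results.MP_8f735f_al.FiniteBasis

open LTerm

/-- **Theorem** (positive answer to Q1). The laws of the ten-element loop `L` have a finite basis:
the explicit list `basis` of 29 identities in at most five variables consists of laws of `L`, and
every law of `L` is derivable from it by equational logic. -/
theorem result :
    basis.length = 29 ∧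
    (∀ e ∈ basis, e.1.VarsLT 5 ∧ e.2.VarsLT 5) ∧
    (∀ e ∈ basis, IsLaw e.1 e.2) ∧
    ∀ s t : LTerm, IsLaw s t → Derives {e | e ∈ basis} s t :=
  result_proof

end Pool.Agent.Results.MP_8f735f_al.FiniteBasis
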